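import Pool.Agent.W528.HB.Stm

/-!
# Project HB, part GO: the Gauss sum of the inverse of the Teichmueller character
-/

set_option autoImplicit false

namespace Pool.Agent.W540.HB.GO

open Finset Pool.Agent.W528.HB

section

variable {c : ℕ} [hc : Fact c.Prime]

theorem nlem (x y : PadicAlgCl c) : ‖x + y‖ ≤ max ‖x‖ ‖y‖ := PadicAlgCl.isNonarchimedean c x y

theorem norm_zeta {ζ : PadicAlgCl c} (hζ : IsPrimitiveRoot ζ c) : ‖ζ‖ = 1 := by
  have h1 : ‖ζ‖ ^ c = 1 := by rw [← norm_pow, hζ.pow_eq_one, norm_one]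
  exact (pow_eq_one_iff_of_nonneg (norm_nonneg _) hc.out.ne_zero).1 h1

theorem norm_one_sub {ζ : PadicAlgCl c} (hζ : IsPrimitiveRoot ζ c) (j : ℕ) :
    ‖1 - ζ ^ j‖ ≤ ‖ζ - 1‖ := by
  induction j with
  | zero => simp
  | succ j ih =>
    have e : 1 - ζ ^ (j + 1) = (1 - ζ ^ j) + (-(ζ ^ j * (ζ - 1))) := by ring
    rw [e]
    refine (nlem _ _).trans (max_le ih ?_)
    rw [norm_neg, norm_mul, norm_pow, norm_zeta hζ, one_pow, one_mul]

theorem norm_c {ζ : PadicAlgCl c} (hζ : IsPrimitiveRoot ζ c) :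
    ‖((c : ℕ) : PadicAlgCl c)‖ ≤ ‖ζ - 1‖ ^ (c - 1) := by
  haveI : NeZero c := ⟨hc.out.ne_zero⟩
  have h1 : ((c : ℕ) : PadicAlgCl c) = ∏ μ ∈ primitiveRoots c (PadicAlgCl c), (1 - μ) := by
    rw [← Polynomial.eval_one_cyclotomic_prime (R := PadicAlgCl c) (p := c),
      Polynomial.cyclotomic_eq_prod_X_sub_primitiveRoots hζ, Polynomial.eval_prod]
    simp
  rw [h1, norm_prod]
  calc ∏ μ ∈ primitiveRoots c (PadicAlgCl c), ‖1 - μ‖
      ≤ ∏ μ ∈ primitiveRoots c (PadicAlgCl c), ‖ζ - 1‖ := by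
        refine prod_le_prod (fun _ _ => norm_nonneg _) fun μ hμ => ?_
        have hμ' := (mem_primitiveRoots hc.out.pos).1 hμ
        obtain ⟨j, _, rfl⟩ := hζ.eq_pow_of_pow_eq_one hμ'.pow_eq_one
        exact norm_one_sub hζ j
    _ = ‖ζ - 1‖ ^ (c - 1) := by
        rw [prod_const, hζ.card_primitiveRoots, Nat.totient_prime hc.out]

/-- second order expansion -/
theorem expand {R : Subring (PadicAlgCl c)} {π : PadicAlgCl c} (hπ : π ∈ R) (t : ℕ) :
    ∃ r ∈ R, (1 + π) ^ t = 1 + t * π + π ^ 2 * r := by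
  induction t with
  | zero => exact ⟨0, R.zero_mem, by simp⟩
  | succ t ih =>
    obtain ⟨r, hr, h⟩ := ih
    refine ⟨t + r + π * r, R.add_mem (R.add_mem (natCast_mem R t) hr) (R.mul_mem hπ hr), ?_⟩
    rw [pow_succ, h]
    push_cast
    ring

end

/-- the trace sum -/
theorem trace_sum (c : ℕ) [hc : Fact c.Prime] (L : Type) [Field L] [Fintype L] [CharP L c] :
    letI := ZMod.algebra L c
    ∑ y : L, y⁻¹ * (((Algebra.trace (ZMod c) L y).val : ℕ) : L) = -1 := by
  classical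
  letI := ZMod.algebra L c
  have hcard : Fintype.card L = c ^ (Module.finrank (ZMod c) L) := by
    have := Module.card_eq_pow_finrank (K := ZMod c) (V := L)
    rw [ZMod.card] at this
    exact this
  set F := Module.finrank (ZMod c) L with hF
  have hFpos : 0 < F := Module.finrank_pos
  have h1 : ∀ y : L, (((Algebra.trace (ZMod c) L y).val : ℕ) : L) = ∑ i ∈ range F, y ^ (c ^ i) := by
    intro y
    have h2 := FiniteField.algebraMap_trace_eq_sum_pow (ZMod c) L y
    rw [Nat.card_zmod] at h2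
    rw [← h2]
    have h3 : algebraMap (ZMod c) L (((Algebra.trace (ZMod c) L y).val : ℕ) : ZMod c) =
        (((Algebra.trace (ZMod c) L y).val : ℕ) : L) := map_natCast _ _
    rw [← h3, ZMod.natCast_zmod_val]
  have h4 : ∑ y : L, y⁻¹ * (((Algebra.trace (ZMod c) L y).val : ℕ) : L) =
      ∑ i ∈ range F, ∑ u : Lˣ, ((u : L) ^ (c ^ i - 1)) := by
    have h5 : ∀ y : L, y⁻¹ * (((Algebra.trace (ZMod c) L y).val : ℕ) : L) =
        ∑ i ∈ range F, y⁻¹ * y ^ (c ^ i) := by
      intro y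
      rw [h1, mul_sum]
    simp only [h5]
    rw [sum_comm]
    refine sum_congr rfl fun i _ => ?_
    have h6 : ∑ y : L, y⁻¹ * y ^ (c ^ i) = ∑ y ∈ univ.filter (fun y : L => y ≠ 0),
        y⁻¹ * y ^ (c ^ i) := by
      rw [sum_filter]
      refine sum_congr rfl fun y _ => ?_
      by_cases hy : y = 0
      · simp [hy]
      · simp [hy]
    rw [h6]
    symm
    refine sum_bij (fun (u : Lˣ) _ => (u : L)) ?_ ?_ ?_ ?_
    · intro u _
      simp
    · intro u _ u' _ h
      exact Units.ext h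
    · intro y hy
      have hy' : y ≠ 0 := (mem_filter.1 hy).2
      exact ⟨Units.mk0 y hy', mem_univ _, rfl⟩
    · intro u _
      have hci : 1 ≤ c ^ i := Nat.one_le_pow _ _ hc.out.pos
      have : (u : L) ^ (c ^ i) = u * (u : L) ^ (c ^ i - 1) := by
        rw [← pow_succ']
        congr 1
        omega
      rw [this, ← mul_assoc, inv_mul_cancel₀ u.ne_zero, one_mul]
  rw [h4]
  simp only [FiniteField.sum_pow_units]
  rw [hcard, sum_eq_single 0]
  · simp
  · intro i hi hi0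
    have hi' := mem_range.1 hi
    rw [if_neg]
    intro hd
    have h7 : c ^ i < c ^ F := Nat.pow_lt_pow_right hc.out.one_lt hi'
    have h8 : 1 < c ^ i := Nat.one_lt_pow hi0 hc.out.one_lt
    have h9 := Nat.le_of_dvd (by omega) hd
    omega
  · intro h
    exact absurd (mem_range.2 hFpos) h

theorem main : Pool.Agent.W528.HB.GO := by
  classical
  intro c hc k _ R res hR L _ _ _ e w hw ψ hψ
  obtain ⟨ζ, hζ, hψ⟩ := hψ
  have htr := trace_sum c L
  letI := ZMod.algebra L c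
  set t : L → ℕ := fun y => (Algebra.trace (ZMod c) L y).val with ht
  have hψ' : ∀ y, ψ y = ζ ^ t y := hψ
  have htr' : ∑ y : L, y⁻¹ * ((t y : ℕ) : L) = -1 := htr
  have hRn : ∀ x, x ∈ R ↔ ‖x‖ ≤ 1 := hR.1
  have hζn := norm_zeta hζ
  have hζR : ζ ∈ R := (hRn ζ).2 hζn.le
  have hπR : ζ - 1 ∈ R := R.sub_mem hζR R.one_mem
  have hwi : ∀ y : L, w⁻¹ y ∈ R := by
    intro y
    rw [MulChar.inv_apply']
    obtain ⟨h, -⟩ := hw y⁻¹
    exact h
  have hchk : CharP k c := charP_of_injective_ringHom e.injective c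
  -- norm of c
  have hcn := norm_c hζ
  by_cases hall : ∀ y : L, y ≠ 0 → y = 1
  · -- two elements
    have h1 : gaussSum w⁻¹ ψ = ψ 1 := by
      unfold gaussSum
      rw [sum_eq_single 1]
      · rw [MulChar.map_one, one_mul]
      · intro y _ hy
        have hy0 : y = 0 := by
          by_contra h0
          exact hy (hall y h0)
        rw [hy0, MulChar.map_zero, zero_mul]
      · intro h
        exact absurd (mem_univ _) h
    rw [h1, hψ', norm_pow, hζn, one_pow, one_pow]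
    exact (hRn _).1 (natCast_mem R c)
  · push Not at hall
    obtain ⟨y₀, hy₀, hy₁⟩ := hall
    have hne : w⁻¹ ≠ 1 := by
      intro h
      have h1 : w = 1 := inv_eq_one.1 h
      obtain ⟨hm, hr⟩ := hw y₀
      have h2 : w y₀ = 1 := by
        rw [h1, MulChar.one_apply (isUnit_iff_ne_zero.2 hy₀)]
      have h3 : (⟨w y₀, hm⟩ : R) = 1 := Subtype.ext h2
      rw [h3, map_one] at hr
      exact hy₁ (e.injective (by rw [← hr, map_one]))
    have hsum := MulChar.sum_eq_zero_of_ne_one hne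
    choose r hrR hr using fun y : L => expand hπR (t y)
    set A : PadicAlgCl c := ∑ y : L, w⁻¹ y * (t y : PadicAlgCl c) with hA
    set B : PadicAlgCl c := ∑ y : L, w⁻¹ y * r y with hB
    have hAR : A ∈ R := R.sum_mem fun y _ => R.mul_mem (hwi y) (natCast_mem R _)
    have hBR : B ∈ R := R.sum_mem fun y _ => R.mul_mem (hwi y) (hrR y)
    have hG : gaussSum w⁻¹ ψ = (ζ - 1) * (A + (ζ - 1) * B) := by
      unfold gaussSum
      have h1 : ∀ y : L, w⁻¹ y * ψ y = w⁻¹ y + (ζ - 1) * (w⁻¹ y * (t y : PadicAlgCl c)) +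
          (ζ - 1) ^ 2 * (w⁻¹ y * r y) := by
        intro y
        have h2 : ψ y = 1 + t y * (ζ - 1) + (ζ - 1) ^ 2 * r y := by
          rw [hψ', ← hr y]
          congr 1
          ring
        rw [h2]
        ring
      simp only [h1]
      rw [sum_add_distrib, sum_add_distrib, hsum, ← mul_sum, ← mul_sum, ← hA, ← hB]
      ring
    -- the residue of A
    have hresA : res ⟨A, hAR⟩ = -1 := by
      have h1 : (⟨A, hAR⟩ : R) = ∑ y : L, (⟨w⁻¹ y, hwi y⟩ : R) * ((t y : ℕ) : R) := by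
        apply Subtype.ext
        rw [AddSubmonoidClass.coe_finsetSum]
        rfl
      rw [h1, map_sum]
      have h2 : ∀ y : L, res ((⟨w⁻¹ y, hwi y⟩ : R) * ((t y : ℕ) : R)) =
          e (y⁻¹ * ((t y : ℕ) : L)) := by
        intro y
        rw [map_mul, map_mul, map_natCast, map_natCast]
        congr 1
        obtain ⟨hm, hr⟩ := hw y⁻¹
        rw [← hr]
        congr 1
        apply Subtype.ext
        exact MulChar.inv_apply' w y
      simp only [h2]
      rw [← map_sum, htr', map_neg, map_one]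
    have hresπ : res ⟨ζ - 1, hπR⟩ = 0 := by
      have h1 : (⟨ζ - 1, hπR⟩ : R) = ⟨ζ, hζR⟩ - 1 := rfl
      have h2 : (⟨ζ, hζR⟩ : R) ^ c = 1 := Subtype.ext hζ.pow_eq_one
      have h3 : (res ⟨ζ, hζR⟩) ^ c = 1 := by rw [← map_pow, h2, map_one]
      have h4 : (res ⟨ζ, hζR⟩ - 1) ^ c = 0 := by
        rw [sub_pow_char, h3, one_pow, sub_self]
      rw [h1, map_sub, map_one]
      exact pow_eq_zero_iff hc.out.ne_zero |>.1 h4
    have hABR : A + (ζ - 1) * B ∈ R := R.add_mem hAR (R.mul_mem hπR hBR)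
    have hresAB : res ⟨A + (ζ - 1) * B, hABR⟩ = -1 := by
      have h1 : (⟨A + (ζ - 1) * B, hABR⟩ : R) = ⟨A, hAR⟩ + ⟨ζ - 1, hπR⟩ * ⟨B, hBR⟩ := rfl
      rw [h1, map_add, map_mul, hresA, hresπ, zero_mul, add_zero]
    have hnAB : ‖A + (ζ - 1) * B‖ = 1 := by
      refine le_antisymm ((hRn _).1 hABR) ?_
      by_contra hcon
      have h1 := (hR.2 ⟨A + (ζ - 1) * B, hABR⟩).2 (not_le.1 hcon)
      rw [hresAB] at h1
      exact neg_ne_zero.2 one_ne_zero h1
    rw [hG, norm_mul, hnAB, mul_one]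
    exact hcn

end Pool.Agent.W540.HB.GO
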